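import Mathlib

/-!
The bilinear form on `F ^ (2 ^ s)` attached to the Hamming distance, and its isotropic flats.
-/

namespace X225.Hm

open MvPolynomial

/-- Hamming distance of two strings. -/
noncomputable def hdist {X : Type*} {n : ℕ} (p q : Fin n → X) : ℕ := {k | p k ≠ q k}.ncard

section Form

variable {X : Type*} {n s : ℕ}

/-- coefficients -/
abbrev K (X : Type*) := MvPolynomial X (ZMod 2)

/-- coefficients with the generic coordinates of the linear forms -/
abbrev R (X : Type*) (n s : ℕ) := MvPolynomial (Fin n × Fin s) (K X)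

/-- the element attached to a letter -/
noncomputable def xx (n s : ℕ) (α : X) : R X n s := C (MvPolynomial.X α)

/-- the generic linear forms -/
noncomputable def vv (X : Type*) (n s : ℕ) (k : Fin n) : MvPolynomial (Fin s) (R X n s) :=
  ∑ i, C (MvPolynomial.X (k, i)) * MvPolynomial.X i

/-- the element attached to a string -/
noncomputable def EE (s : ℕ) (a : Fin n → X) : MvPolynomial (Fin s) (R X n s) :=
  ∏ k, (1 + C (xx n s (a k)) * vv X n s k)

/-- the exponent of the squarefree monomial in all variables -/
noncomputable def top (s : ℕ) : Fin s →₀ ℕ := Finsupp.equivFunOnFinite.symm fun _ => 1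

lemma top_apply (i : Fin s) : top s i = 1 := rfl

instance : CharP (K X) 2 := by infer_instance
instance : CharP (R X n s) 2 := by infer_instance
instance : IsDomain (R X n s) := by infer_instance

lemma two_eq_zero' : (2 : MvPolynomial (Fin s) (R X n s)) = 0 := by
  have : CharP (MvPolynomial (Fin s) (R X n s)) 2 := by infer_instance
  exact_mod_cast CharP.cast_eq_zero (MvPolynomial (Fin s) (R X n s)) 2

/-- the ideal of squares of variables -/
noncomputable def JJ (X : Type*) (n s : ℕ) : Ideal (MvPolynomial (Fin s) (R X n s)) :=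
  Ideal.span (Set.range fun i : Fin s => (MvPolynomial.X i : MvPolynomial (Fin s) (R X n s)) ^ 2)

lemma coeff_JJ {p : MvPolynomial (Fin s) (R X n s)} (hp : p ∈ JJ X n s) :
    coeff (top s) p = 0 := by
  unfold JJ at hp
  rw [Ideal.mem_span_range_iff_exists_fun] at hp
  obtain ⟨c, rfl⟩ := hp
  rw [coeff_sum]
  refine Finset.sum_eq_zero fun i _ => ?_
  rw [X_pow_eq_monomial, coeff_mul_monomial', if_neg]
  intro h
  have := h i
  rw [Finsupp.single_eq_same, top_apply] at this
  omega

lemma vv_sq (k : Fin n) : vv X n s k ^ 2 ∈ JJ X n s := by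
  unfold vv
  have : CharP (MvPolynomial (Fin s) (R X n s)) 2 := by infer_instance
  rw [sum_pow_char 2]
  refine Ideal.sum_mem _ fun i _ => ?_
  rw [mul_pow]
  exact Ideal.mul_mem_left _ _ (Ideal.subset_span ⟨i, rfl⟩)

lemma prod_sub_mem {A : Type*} [CommRing A] (J : Ideal A) {ι : Type*} (S : Finset ι)
    (f g : ι → A) (h : ∀ k ∈ S, f k - g k ∈ J) : ∏ k ∈ S, f k - ∏ k ∈ S, g k ∈ J := by
  rw [← Ideal.Quotient.eq, map_prod, map_prod]
  exact Finset.prod_congr rfl fun k hk => Ideal.Quotient.eq.2 (h k hk)

lemma EE_mul (a b : Fin n → X) : coeff (top s) (EE s a * EE s b) =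
    coeff (top s) (∏ k, (1 + C (xx n s (a k) + xx n s (b k)) * vv X n s k)) := by
  rw [← sub_eq_zero, ← coeff_sub]
  apply coeff_JJ
  unfold EE
  rw [← Finset.prod_mul_distrib]
  refine prod_sub_mem (A := MvPolynomial (Fin s) (R X n s)) (JJ X n s) _ _ _ fun k _ => ?_
  have : (1 + C (xx n s (a k)) * vv X n s k) * (1 + C (xx n s (b k)) * vv X n s k) -
      (1 + C (xx n s (a k) + xx n s (b k)) * vv X n s k) =
      (C (xx n s (a k)) * C (xx n s (b k))) * vv X n s k ^ 2 := by
    rw [C_add]
    ring
  rw [this]
  exact Ideal.mul_mem_left _ _ (vv_sq k)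

/-- the pairing -/
noncomputable def Phi (s : ℕ) (a b : Fin n → X) : R X n s := coeff (top s) (EE s a * EE s b)

lemma xx_add_self (α : X) : xx n s α + xx n s α = 0 := CharTwo.add_self_eq_zero _

lemma Phi_eq_zero {t : ℕ} (a b : Fin n → X) (h : hdist a b ≤ t) : Phi (t + 1) a b = 0 := by
  classical
  unfold Phi
  rw [EE_mul]
  apply coeff_eq_zero_of_totalDegree_lt
  have h1 : (∏ k, (1 + C (xx n (t + 1) (a k) + xx n (t + 1) (b k)) * vv X n (t + 1) k)) =
      ∏ k ∈ Finset.univ.filter (fun k => a k ≠ b k),
        (1 + C (xx n (t + 1) (a k) + xx n (t + 1) (b k)) * vv X n (t + 1) k) := by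
    symm
    apply Finset.prod_subset (Finset.filter_subset _ _)
    intro k _ hk
    rw [Finset.mem_filter, not_and, not_not] at hk
    rw [hk (Finset.mem_univ _), xx_add_self, C_0, zero_mul, add_zero]
  rw [h1]
  have h2 : ∀ k, (1 + C (xx n (t + 1) (a k) + xx n (t + 1) (b k)) *
      vv X n (t + 1) k).totalDegree ≤ 1 := by
    intro k
    refine (totalDegree_add _ _).trans (max_le ?_ ?_)
    · rw [totalDegree_one]
      omega
    · refine (totalDegree_mul _ _).trans ?_
      rw [totalDegree_C, zero_add]
      unfold vv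
      refine (totalDegree_finset_sum _ _).trans ?_
      refine Finset.sup_le fun i _ => ?_
      refine (totalDegree_mul _ _).trans ?_
      rw [totalDegree_C, zero_add]
      exact (totalDegree_X i).le
  have h3 : ∑ i ∈ (top (t + 1)).support, top (t + 1) i = t + 1 := by
    have : (top (t + 1)).support = Finset.univ := by
      ext i
      simp [Finsupp.mem_support_iff, top_apply]
    rw [this]
    simp [top_apply]
  have h4 : (Finset.univ.filter fun k => a k ≠ b k).card ≤ t := by
    have : hdist a b = (Finset.univ.filter fun k => a k ≠ b k).card := by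
      unfold hdist
      rw [← Set.ncard_coe_finset]
      congr 1
      ext k
      simp
    omega
  rw [h3]
  refine lt_of_le_of_lt (totalDegree_finset_prod _ _) ?_
  refine lt_of_le_of_lt (Finset.sum_le_sum fun k _ => h2 k) ?_
  rw [Finset.sum_const, smul_eq_mul, mul_one]
  omega

lemma coeff_top_prod {A : Type*} [CommRing A] (c : Fin s → A) :
    coeff (top s) (∏ i, (1 + C (c i) * (MvPolynomial.X i : MvPolynomial (Fin s) A))) =
      ∏ i, c i := by
  classical
  have h1 : ∀ S : Finset (Fin s), (∏ i ∈ S, (C (c i) * (MvPolynomial.X i : MvPolynomial (Fin s) A)))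
      = monomial (∑ i ∈ S, Finsupp.single i 1) (∏ i ∈ S, c i) := by
    intro S
    induction S using Finset.induction_on with
    | empty => simp
    | insert i S hi ih =>
      rw [Finset.prod_insert hi, ih, Finset.sum_insert hi, Finset.prod_insert hi,
        C_mul_X_eq_monomial, monomial_mul]
  rw [Finset.prod_one_add, coeff_sum, Finset.sum_eq_single Finset.univ]
  · rw [h1, coeff_monomial, if_pos]
    ext i
    rw [Finsupp.finset_sum_apply, top_apply]
    simp [Finsupp.single_apply]
  · intro S _ hS
    rw [h1, coeff_monomial, if_neg]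
    intro he
    apply hS
    rw [Finset.eq_univ_iff_forall]
    intro i
    by_contra hi
    have := DFunLike.congr_fun he i
    rw [Finsupp.finset_sum_apply, top_apply] at this
    simp [Finsupp.single_apply, hi] at this
  · intro h
    exact absurd (Finset.mem_powerset.2 (Finset.subset_univ _)) h

lemma Phi_ne_zero (a b : Fin n → X) (h : s ≤ hdist a b) : Phi s a b ≠ 0 := by
  classical
  have hcard : hdist a b = (Finset.univ.filter fun k => a k ≠ b k).card := by
    unfold hdist
    rw [← Set.ncard_coe_finset]
    congr 1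
    ext k
    simp
  rw [hcard] at h
  obtain ⟨D, hD, hDc⟩ := Finset.exists_subset_card_eq h
  let κ : Fin s ↪ Fin n := (D.orderEmbOfFin hDc).toEmbedding
  have hκ : ∀ i, a (κ i) ≠ b (κ i) := by
    intro i
    have h1 : κ i ∈ D := Finset.orderEmbOfFin_mem _ _ _
    exact (Finset.mem_filter.1 (hD h1)).2
  intro hzero
  -- evaluation of the generic coordinates
  let ψ : R X n s →+* K X :=
    (MvPolynomial.eval (fun p : Fin n × Fin s => if p.1 = κ p.2 then (1 : K X) else 0))
  have h1 : ψ (Phi s a b) = ∏ i, (MvPolynomial.X (a (κ i)) + MvPolynomial.X (b (κ i)) : K X) := by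
    unfold Phi
    rw [EE_mul, ← coeff_map, map_prod, ← coeff_top_prod
      (fun i => (MvPolynomial.X (a (κ i)) + MvPolynomial.X (b (κ i)) : K X))]
    congr 1
    have h2 : ∀ k, MvPolynomial.map ψ (1 + C (xx n s (a k) + xx n s (b k)) * vv X n s k) =
        1 + C (MvPolynomial.X (a k) + MvPolynomial.X (b k) : K X) *
          ∑ i, (if k = κ i then (MvPolynomial.X i : MvPolynomial (Fin s) (K X)) else 0) := by
      intro k
      rw [map_add, map_one, map_mul, map_C]
      congr 2
      · congr 1
        rw [map_add]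
        unfold xx
        change MvPolynomial.eval _ (C _) + MvPolynomial.eval _ (C _) = _
        rw [eval_C, eval_C]
      · unfold vv
        rw [map_sum]
        refine Finset.sum_congr rfl fun i _ => ?_
        rw [map_mul, map_C, map_X]
        change C (MvPolynomial.eval _ (MvPolynomial.X (k, i))) * _ = _
        rw [eval_X]
        change C (if k = κ i then 1 else 0) * _ = _
        split_ifs with hk
        · rw [C_1, one_mul]
        · rw [C_0, zero_mul]
    rw [Finset.prod_congr rfl fun k _ => h2 k]
    have h3 : ∀ i, (∑ j, (if κ i = κ j then (MvPolynomial.X j : MvPolynomial (Fin s) (K X))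
        else 0)) = MvPolynomial.X i := by
      intro i
      rw [Finset.sum_eq_single i]
      · rw [if_pos rfl]
      · intro j _ hj
        rw [if_neg]
        intro he
        exact hj (κ.injective he).symm
      · intro h
        exact absurd (Finset.mem_univ _) h
    have h4 : ∏ i, (1 + C (MvPolynomial.X (a (κ i)) + MvPolynomial.X (b (κ i)) : K X) *
        (MvPolynomial.X i : MvPolynomial (Fin s) (K X))) =
        ∏ k ∈ Finset.univ.map κ, (1 + C (MvPolynomial.X (a k) + MvPolynomial.X (b k) : K X) *
          ∑ i, (if k = κ i then (MvPolynomial.X i : MvPolynomial (Fin s) (K X)) else 0)) := by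
      rw [Finset.prod_map]
      refine Finset.prod_congr rfl fun i _ => ?_
      rw [h3]
    rw [h4]
    symm
    apply Finset.prod_subset (Finset.subset_univ _)
    intro k _ hk
    rw [Finset.sum_eq_zero, mul_zero, add_zero]
    intro i _
    rw [if_neg]
    intro he
    exact hk (Finset.mem_map.2 ⟨i, Finset.mem_univ _, he.symm⟩)
  rw [hzero, map_zero] at h1
  have h2 := Finset.prod_eq_zero_iff.1 h1.symm
  obtain ⟨i, -, hi⟩ := h2
  have h3 : (MvPolynomial.X (a (κ i)) : K X) = MvPolynomial.X (b (κ i)) :=
    CharTwo.add_eq_zero.1 hi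
  exact hκ i (MvPolynomial.X_injective h3)

lemma card_antidiagonal_top (s : ℕ) : (Finset.HasAntidiagonal.antidiagonal (top s)).card ≤ 2 ^ s := by
  classical
  have h1 : (Finset.HasAntidiagonal.antidiagonal (top s)).card ≤ (Finset.univ : Finset (Finset (Fin s))).card := by
    refine Finset.card_le_card_of_injOn (fun p => p.1.support) (fun _ _ => by simp) ?_
    intro p hp q hq he
    rw [Finset.mem_coe, Finset.HasAntidiagonal.mem_antidiagonal] at hp hq
    have key : ∀ r : (Fin s →₀ ℕ) × (Fin s →₀ ℕ), r.1 + r.2 = top s →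
        ∀ i, r.1 i = if i ∈ r.1.support then 1 else 0 := by
      intro r hr i
      have h2 := DFunLike.congr_fun hr i
      rw [Finsupp.add_apply, top_apply] at h2
      split_ifs with h3
      · rw [Finsupp.mem_support_iff] at h3
        omega
      · rw [Finsupp.notMem_support_iff] at h3
        exact h3
    have h3 : p.1 = q.1 := by
      ext i
      rw [key p hp i, key q hq i]
      change p.1.support = q.1.support at he
      rw [he]
    have h4 : p.2 = q.2 := by
      rw [h3] at hp
      exact add_left_cancel (hp.trans hq.symm)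
    exact Prod.ext h3 h4
  rw [Finset.card_univ, Fintype.card_finset, Fintype.card_fin] at h1
  exact h1


/-- index set of the coordinates -/
abbrev TT (s : ℕ) := {p // p ∈ Finset.HasAntidiagonal.antidiagonal (top s)}

/-- the field -/
abbrev FF (X : Type*) (n s : ℕ) := FractionRing (R X n s)

/-- the vector of a string -/
noncomputable def uu (s : ℕ) (a : Fin n → X) : TT s → FF X n s :=
  fun p => algebraMap _ _ (coeff p.1.1 (EE s a))

/-- swapping the two components -/
def sw (s : ℕ) : TT s ≃ TT s where
  toFun p := ⟨p.1.swap, by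
    have := p.2
    rw [Finset.HasAntidiagonal.mem_antidiagonal] at this ⊢
    rw [Prod.fst_swap, Prod.snd_swap, add_comm]
    exact this⟩
  invFun p := ⟨p.1.swap, by
    have := p.2
    rw [Finset.HasAntidiagonal.mem_antidiagonal] at this ⊢
    rw [Prod.fst_swap, Prod.snd_swap, add_comm]
    exact this⟩
  left_inv p := rfl
  right_inv p := rfl

lemma map_Phi (a b : Fin n → X) : algebraMap (R X n s) (FF X n s) (Phi s a b) =
    ∑ p : TT s, uu s a p * uu s b (sw s p) := by
  unfold Phi
  rw [coeff_mul, ← Finset.sum_coe_sort, map_sum]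
  refine Finset.sum_congr rfl fun p _ => ?_
  rw [map_mul]
  rfl

lemma coeff_zero_EE (a : Fin n → X) : coeff 0 (EE s a) = 1 := by
  have h1 : coeff 0 (EE s a) = constantCoeff (EE s a) := rfl
  rw [h1]
  unfold EE
  rw [map_prod]
  refine Finset.prod_eq_one fun k _ => ?_
  rw [map_add, map_one, map_mul]
  have : constantCoeff (vv X n s k) = 0 := by
    unfold vv
    rw [map_sum]
    refine Finset.sum_eq_zero fun i _ => ?_
    rw [map_mul, constantCoeff_X, mul_zero]
  rw [this, mul_zero, add_zero]

lemma uu_ne_zero (a : Fin n → X) : uu s a ≠ 0 := by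
  intro h
  have h1 : (0, top s) ∈ Finset.HasAntidiagonal.antidiagonal (top s) := by
    rw [Finset.HasAntidiagonal.mem_antidiagonal, zero_add]
  have h2 := congrFun h ⟨(0, top s), h1⟩
  have h3 : uu s a ⟨(0, top s), h1⟩ = algebraMap _ _ (coeff 0 (EE s a)) := rfl
  rw [h3, coeff_zero_EE, map_one] at h2
  exact one_ne_zero h2

/-- the pairing with the vector of a string -/
noncomputable def LL (s : ℕ) (b : Fin n → X) : (TT s → FF X n s) →ₗ[FF X n s] FF X n s where
  toFun x := ∑ p : TT s, x p * uu s b (sw s p)
  map_add' x y := by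
    rw [← Finset.sum_add_distrib]
    exact Finset.sum_congr rfl fun p _ => add_mul _ _ _
  map_smul' c x := by
    rw [RingHom.id_apply, smul_eq_mul, Finset.mul_sum]
    exact Finset.sum_congr rfl fun p _ => mul_assoc _ _ _

lemma LL_uu (a b : Fin n → X) : LL s b (uu s a) = algebraMap _ _ (Phi s a b) := (map_Phi a b).symm

lemma LL_eq_zero_iff {t : ℕ} (a b : Fin n → X) : LL (t + 1) b (uu (t + 1) a) = 0 ↔ hdist a b ≤ t := by
  rw [LL_uu, map_eq_zero_iff _ (IsFractionRing.injective (R X n (t + 1)) _)]
  constructor
  · intro h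
    by_contra hcon
    exact Phi_ne_zero a b (by omega) h
  · exact Phi_eq_zero a b

/-- vectors spanned by strings at distance at most `t` from `b` -/
lemma hdist_le_of_mem_span {t : ℕ} (S : Set (Fin n → X)) (a b : Fin n → X)
    (ha : uu (t + 1) a ∈ Submodule.span (FF X n (t + 1)) (uu (t + 1) '' S))
    (hb : ∀ c ∈ S, hdist c b ≤ t) : hdist a b ≤ t := by
  rw [← LL_eq_zero_iff]
  have h1 : Submodule.span (FF X n (t + 1)) (uu (t + 1) '' S) ≤ LinearMap.ker (LL (t + 1) b) := by
    rw [Submodule.span_le]
    rintro _ ⟨c, hc, rfl⟩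
    exact (LL_eq_zero_iff c b).2 (hb c hc)
  exact h1 ha

/-- pairwise close strings with independent vectors -/
lemma card_le_of_indep {t : ℕ} {ι : Type*} [Fintype ι] (f : ι → (Fin n → X))
    (hf : LinearIndependent (FF X n (t + 1)) fun i => uu (t + 1) (f i))
    (hd : ∀ i j, hdist (f i) (f j) ≤ t) : Fintype.card ι ≤ 2 ^ t := by
  classical
  let M : Matrix ι (TT (t + 1)) (FF X n (t + 1)) := fun i p => uu (t + 1) (f i) p
  let N : Matrix (TT (t + 1)) ι (FF X n (t + 1)) := fun p i => uu (t + 1) (f i) (sw (t + 1) p)
  have hMN : M * N = 0 := by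
    ext1 i j
    rw [Matrix.mul_apply, Matrix.zero_apply]
    exact (LL_eq_zero_iff (f i) (f j)).2 (hd i j)
  have hM : M.rank = Fintype.card ι := LinearIndependent.rank_matrix (M := M) hf
  have hN : N.rank = Fintype.card ι := by
    have h1 : N = (M.submatrix (Equiv.refl ι) (sw (t + 1))).transpose := rfl
    rw [h1, Matrix.rank_transpose, Matrix.rank_submatrix, hM]
  have h1 := Matrix.rank_add_rank_le_card_of_mul_eq_zero hMN
  rw [hM, hN, Fintype.card_coe] at h1
  have h2 := card_antidiagonal_top (t + 1)
  rw [pow_succ] at h2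
  omega

end Form

end X225.Hm
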