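import Mathlib

/-!
Collapsing a complex whose faces are closed under adding linearly dependent vertices.
-/

namespace X225.Hm

open Finset

/-- `K` collapses to `L` in one elementary step: `L` is `K` without two faces `σ ⊂ τ` with
`dim τ = dim σ + 1` such that `τ` is the only face of `K` properly containing `σ`. -/
def ElemCollapse (K L : Finset (Finset ℕ)) : Prop :=
  ∃ σ ∈ K, ∃ τ ∈ K, σ ⊂ τ ∧ τ.card = σ.card + 1 ∧ (∀ ρ ∈ K, σ ⊂ ρ → ρ = τ) ∧ L = K \ {σ, τ}

/-- `K` collapses to `L`: a finite sequence of elementary collapses leads from `K` to `L`. -/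
def Collapses (K L : Finset (Finset ℕ)) : Prop := Relation.ReflTransGen ElemCollapse K L

section abstract

variable {F W : Type*} [Field F] [AddCommGroup W] [Module F W]

/-- the span of the vectors of the elements of `σ` above `v` -/
def spanAbove (u : ℕ → W) (F : Type*) [Field F] [Module F W] (σ : Finset ℕ) (v : ℕ) :
    Submodule F W :=
  Submodule.span F (u '' {w | w ∈ σ ∧ v < w})

lemma spanAbove_mono (u : ℕ → W) {σ τ : Finset ℕ} (h : σ ⊆ τ) (v : ℕ) :
    spanAbove u F σ v ≤ spanAbove u F τ v :=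
  Submodule.span_mono (Set.image_mono fun _ hw => ⟨h hw.1, hw.2⟩)

lemma spanAbove_anti (u : ℕ → W) (σ : Finset ℕ) {v v' : ℕ} (h : v' ≤ v) :
    spanAbove u F σ v ≤ spanAbove u F σ v' :=
  Submodule.span_mono (Set.image_mono fun _ hw => ⟨hw.1, lt_of_le_of_lt h hw.2⟩)

/-- adding an element that is spanned by larger elements does not change the spans -/
lemma spanAbove_insert (u : ℕ → W) (σ : Finset ℕ) {v : ℕ} (hv : u v ∈ spanAbove u F σ v)
    (v' : ℕ) : spanAbove u F (insert v σ) v' = spanAbove u F σ v' := by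
  apply le_antisymm
  · unfold spanAbove
    rw [Submodule.span_le]
    rintro _ ⟨w, ⟨hw, hvw⟩, rfl⟩
    rw [mem_insert] at hw
    rcases hw with rfl | hw
    · exact spanAbove_anti u σ hvw.le hv
    · exact Submodule.subset_span ⟨w, ⟨hw, hvw⟩, rfl⟩
  · exact spanAbove_mono u (subset_insert _ _) v'

lemma mem_spanAbove_erase (u : ℕ → W) (σ : Finset ℕ) (v : ℕ) :
    spanAbove u F (σ.erase v) v = spanAbove u F σ v := by
  unfold spanAbove
  congr 2
  ext w
  simp only [Set.mem_setOf_eq, mem_erase]
  constructor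
  · rintro ⟨⟨_, h⟩, h'⟩
    exact ⟨h, h'⟩
  · rintro ⟨h, h'⟩
    exact ⟨⟨h'.ne', h⟩, h'⟩

lemma spanAbove_erase (u : ℕ → W) (σ : Finset ℕ) {v : ℕ} (hv : u v ∈ spanAbove u F σ v)
    (v' : ℕ) : spanAbove u F (σ.erase v) v' = spanAbove u F σ v' := by
  by_cases h : v ∈ σ
  · have h1 : u v ∈ spanAbove u F (σ.erase v) v := by
      rw [mem_spanAbove_erase]
      exact hv
    have h2 := spanAbove_insert (F := F) u (σ.erase v) h1 v'
    rw [insert_erase h] at h2
    exact h2.symm
  · rw [erase_eq_of_notMem h]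

lemma indep_of_not_mem (u : ℕ → W) (σ : Finset ℕ)
    (h : ∀ v ∈ σ, u v ∉ spanAbove u F σ v) : LinearIndepOn F u (σ : Set ℕ) := by
  induction σ using Finset.induction_on_min with
  | empty => simp
  | insert a s ha ih =>
    have has : a ∉ (s : Set ℕ) := fun h' => lt_irrefl _ (ha a h')
    rw [coe_insert, linearIndepOn_insert has]
    constructor
    · apply ih
      intro v hv hmem
      exact h v (mem_insert_of_mem hv) (spanAbove_mono u (subset_insert _ _) v hmem)
    · intro hmem
      apply h a (mem_insert_self _ _)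
      unfold spanAbove
      refine Submodule.span_mono (Set.image_mono ?_) hmem
      intro w hw
      exact ⟨mem_insert_of_mem hw, ha w hw⟩

/-- **Collapsing lemma.** -/
theorem collapse_low (K : Finset (Finset ℕ)) (A : Finset ℕ) (u : ℕ → W) (d : ℕ) (hd : 1 ≤ d)
    (hne : ∀ σ ∈ K, σ.Nonempty) (hA : ∀ σ ∈ K, σ ⊆ A)
    (hdown : ∀ σ ∈ K, ∀ ρ, ρ ⊆ σ → ρ.Nonempty → ρ ∈ K)
    (hu : ∀ v, u v ≠ 0)
    (hcl : ∀ σ ∈ K, ∀ v ∈ A, u v ∈ Submodule.span F (u '' (σ : Set ℕ)) → insert v σ ∈ K)
    (hrank : ∀ σ ∈ K, LinearIndepOn F u (σ : Set ℕ) → σ.card ≤ d) :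
    ∃ L, Collapses K L ∧ L ⊆ K ∧ ∀ σ ∈ L, σ.card ≤ d := by
  classical
  -- the active set and its minimum
  let act : Finset ℕ → Finset ℕ := fun σ => A.filter fun v => u v ∈ spanAbove u F σ v
  have hact : ∀ σ v, v ∈ act σ ↔ v ∈ A ∧ u v ∈ spanAbove u F σ v := by
    intro σ v
    simp only [act, mem_filter]
  have act_mono : ∀ σ τ, σ ⊆ τ → act σ ⊆ act τ := by
    intro σ τ h v hv
    rw [hact] at hv ⊢
    exact ⟨hv.1, spanAbove_mono u h v hv.2⟩
  have act_insert : ∀ σ v, v ∈ act σ → act (insert v σ) = act σ := by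
    intro σ v hv
    ext w
    rw [hact, hact, spanAbove_insert u σ ((hact _ _).1 hv).2]
  have act_erase : ∀ σ v, v ∈ act σ → act (σ.erase v) = act σ := by
    intro σ v hv
    ext w
    rw [hact, hact, spanAbove_erase u σ ((hact _ _).1 hv).2]
  let a : Finset ℕ → ℕ := fun σ => if h : (act σ).Nonempty then (act σ).min' h else 0
  have ha_mem : ∀ σ, (act σ).Nonempty → a σ ∈ act σ := by
    intro σ h
    simp only [a, dif_pos h]
    exact min'_mem _ _
  have ha_le : ∀ σ v, v ∈ act σ → a σ ≤ v := by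
    intro σ v hv
    have hne' : (act σ).Nonempty := ⟨v, hv⟩
    change (if h : (act σ).Nonempty then (act σ).min' h else 0) ≤ v
    rw [dif_pos hne']
    exact min'_le _ _ hv
  have ha_congr : ∀ σ τ, act σ = act τ → a σ = a τ := by
    intro σ τ h
    simp only [a, h]
  -- large faces are active
  have hbig : ∀ σ ∈ K, d < σ.card → (act σ).Nonempty := by
    intro σ hσ hcard
    by_contra hcon
    rw [not_nonempty_iff_eq_empty] at hcon
    have h1 : LinearIndepOn F u (σ : Set ℕ) := by
      apply indep_of_not_mem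
      intro v hv hmem
      have : v ∈ act σ := (hact _ _).2 ⟨hA σ hσ hv, hmem⟩
      rw [hcon] at this
      exact notMem_empty _ this
    have := hrank σ hσ h1
    omega
  have hins : ∀ σ ∈ K, ∀ v ∈ act σ, insert v σ ∈ K := by
    intro σ hσ v hv
    rw [hact] at hv
    refine hcl σ hσ v hv.1 (Submodule.span_mono (Set.image_mono ?_) hv.2)
    intro w hw
    exact hw.1
  have hers : ∀ σ ∈ K, ∀ v ∈ act σ, σ.erase v ∈ K := by
    intro σ hσ v hv
    refine hdown σ hσ _ (erase_subset _ _) ?_
    rw [hact] at hv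
    by_contra hcon
    rw [not_nonempty_iff_eq_empty] at hcon
    have h1 := hv.2
    rw [← mem_spanAbove_erase, hcon] at h1
    unfold spanAbove at h1
    simp only [notMem_empty, false_and, Set.setOf_false, Set.image_empty, Submodule.span_empty,
      Submodule.mem_bot] at h1
    exact hu v h1
  let U : Finset (Finset ℕ) := K.filter fun τ => d < τ.card ∧ a τ ∈ τ
  have hU : ∀ τ, τ ∈ U ↔ τ ∈ K ∧ d < τ.card ∧ a τ ∈ τ := by
    intro τ
    simp only [U, mem_filter]
  have hUact : ∀ τ ∈ U, a τ ∈ act τ := fun τ hτ =>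
    ha_mem τ (hbig τ ((hU τ).1 hτ).1 ((hU τ).1 hτ).2.1)
  have haσ : ∀ τ ∈ U, a (τ.erase (a τ)) = a τ := fun τ hτ => ha_congr _ _ (act_erase τ _ (hUact τ hτ))
  let key : Finset ℕ → ℕ ×ₗ ℕ := fun τ => toLex (A.card - τ.card, a τ)
  have hcardA : ∀ σ ∈ K, σ.card ≤ A.card := fun σ hσ => card_le_card (hA σ hσ)
  have main : ∀ n : ℕ, ∀ Rm : Finset (Finset ℕ), Rm.card = n → Rm ⊆ U →
      (∀ τ ∈ Rm, ∀ τ' ∈ U, key τ' < key τ → τ' ∈ Rm) →
      Collapses K (K \ (Rm ∪ Rm.image fun τ => τ.erase (a τ))) := by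
    intro n
    induction n with
    | zero =>
      intro Rm hR _ _
      rw [card_eq_zero] at hR
      subst hR
      simp only [image_empty, union_empty, sdiff_empty]
      exact Relation.ReflTransGen.refl
    | succ n ih =>
      intro Rm hR hRU hclosed
      obtain ⟨τ, hτR, hτmax⟩ := exists_max_image Rm key (card_pos.1 (by omega))
      have hτU := hRU hτR
      have hτ := (hU τ).1 hτU
      have hE : (Rm.erase τ).card = n := by
        rw [card_erase_of_mem hτR]
        omega
      have h1 := ih (Rm.erase τ) hE ((erase_subset _ _).trans hRU) (by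
        intro τ₁ h₁ τ' h' hlt
        rw [mem_erase] at h₁ ⊢
        refine ⟨?_, hclosed τ₁ h₁.2 τ' h' hlt⟩
        rintro rfl
        exact absurd (hτmax τ₁ h₁.2) (not_le.2 hlt))
      refine h1.tail ?_
      have hnotmem : ∀ ρ, ρ ∈ U → ρ ∉ Rm.image (fun τ => τ.erase (a τ)) := by
        intro ρ hρ hmem
        rw [mem_image] at hmem
        obtain ⟨τ₁, hτ₁, rfl⟩ := hmem
        have h2 := ((hU _).1 hρ).2.2
        rw [haσ τ₁ (hRU hτ₁)] at h2
        exact notMem_erase _ _ h2
      have herase_notU : ∀ τ₁ ∈ U, τ₁.erase (a τ₁) ∉ U := by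
        intro τ₁ h2 h3
        have h4 := ((hU _).1 h3).2.2
        rw [haσ τ₁ h2] at h4
        exact notMem_erase _ _ h4
      have hinj : ∀ τ₁ ∈ U, ∀ τ₂ ∈ U, τ₁.erase (a τ₁) = τ₂.erase (a τ₂) → τ₁ = τ₂ := by
        intro τ₁ h2 τ₂ h3 he
        have h4 : a τ₁ = a τ₂ := by
          rw [← haσ τ₁ h2, ← haσ τ₂ h3, he]
        rw [← insert_erase ((hU _).1 h2).2.2, ← insert_erase ((hU _).1 h3).2.2, he, h4]
      refine ⟨τ.erase (a τ), ?_, τ, ?_, erase_ssubset hτ.2.2, ?_, ?_, ?_⟩
      · rw [mem_sdiff, mem_union, not_or]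
        refine ⟨hers τ hτ.1 _ (hUact τ hτU), ?_, ?_⟩
        · intro h2
          exact herase_notU τ hτU (hRU (mem_of_mem_erase h2))
        · intro h2
          rw [mem_image] at h2
          obtain ⟨τ₁, hτ₁, he⟩ := h2
          rw [mem_erase] at hτ₁
          exact hτ₁.1 (hinj τ₁ (hRU hτ₁.2) τ hτU he)
      · rw [mem_sdiff, mem_union, not_or]
        refine ⟨hτ.1, notMem_erase _ _, ?_⟩
        intro h2
        exact hnotmem τ hτU (image_subset_image (erase_subset _ _) h2)
      · rw [card_erase_of_mem hτ.2.2]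
        omega
      · -- uniqueness
        intro ρ hρ hss
        rw [mem_sdiff, mem_union, not_or] at hρ
        obtain ⟨hρK, hρ1, hρ2⟩ := hρ
        by_contra hne'
        have hc1 : (τ.erase (a τ)).card < ρ.card := card_lt_card hss
        rw [card_erase_of_mem hτ.2.2] at hc1
        have hρbig : d < ρ.card := by omega
        have hkey_card : ∀ τ₁ ∈ K, τ.card < τ₁.card → key τ₁ < key τ := by
          intro τ₁ h2 h3
          have h4 := hcardA τ₁ h2
          refine Prod.Lex.toLex_lt_toLex.2 (Or.inl ?_)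
          change A.card - τ₁.card < A.card - τ.card
          omega
        by_cases haρ : a ρ ∈ ρ
        · have hρU : ρ ∈ U := (hU ρ).2 ⟨hρK, hρbig, haρ⟩
          have hlt : key ρ < key τ := by
            rcases Nat.lt_or_ge τ.card ρ.card with h2 | h2
            · exact hkey_card ρ hρK h2
            · have hc2 : ρ.card = τ.card := by omega
              refine Prod.Lex.toLex_lt_toLex.2 (Or.inr ⟨?_, ?_⟩)
              · change A.card - ρ.card = A.card - τ.card
                omega
              · change a ρ < a τ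
                have h3 : a τ ∈ act (τ.erase (a τ)) := by
                  rw [act_erase τ _ (hUact τ hτU)]
                  exact hUact τ hτU
                have h4 : a ρ ≤ a τ := ha_le ρ _ (act_mono _ _ hss.subset h3)
                refine lt_of_le_of_ne h4 ?_
                intro h5
                rw [h5] at haρ
                apply hne'
                -- ρ contains τ
                have h6 : τ ⊆ ρ := by
                  rw [← insert_erase hτ.2.2]
                  exact insert_subset haρ hss.subset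
                exact (eq_of_subset_of_card_le h6 (by omega)).symm
          exact hρ1 (mem_erase.2 ⟨hne', hclosed τ hτR ρ hρU hlt⟩)
        · -- ρ is a lower face
          have h2 : a ρ ∈ act ρ := ha_mem ρ (hbig ρ hρK hρbig)
          have h3 := hins ρ hρK _ h2
          have h4 : a (insert (a ρ) ρ) = a ρ := ha_congr _ _ (act_insert ρ _ h2)
          have h5 : (insert (a ρ) ρ).card = ρ.card + 1 := card_insert_of_notMem haρ
          have h6 : insert (a ρ) ρ ∈ U := (hU _).2 ⟨h3, by omega, by
            rw [h4]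
            exact mem_insert_self _ _⟩
          have h7 : insert (a ρ) ρ ∈ Rm := hclosed τ hτR _ h6 (hkey_card _ h3 (by omega))
          apply hρ2
          rw [mem_image]
          refine ⟨insert (a ρ) ρ, mem_erase.2 ⟨?_, h7⟩, ?_⟩
          · intro h8
            rw [h8] at h5
            omega
          · rw [h4, erase_insert haρ]
      · -- the new complex
        ext ρ
        simp only [mem_sdiff, mem_union, mem_image, mem_erase, mem_insert, mem_singleton, not_or]
        constructor
        · rintro ⟨h2, h3, h4⟩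
          refine ⟨⟨h2, fun h5 => h3 h5.2, ?_⟩, ?_, ?_⟩
          · rintro ⟨τ₁, h5, h6⟩
            exact h4 ⟨τ₁, h5.2, h6⟩
          · rintro rfl
            exact h4 ⟨τ, hτR, rfl⟩
          · rintro rfl
            exact h3 hτR
        · rintro ⟨⟨h2, h3, h4⟩, h5, h6⟩
          refine ⟨h2, fun h7 => h3 ⟨h6, h7⟩, ?_⟩
          rintro ⟨τ₁, h7, h8⟩
          by_cases h9 : τ₁ = τ
          · subst h9
            exact h5 h8.symm
          · exact h4 ⟨τ₁, ⟨h9, h7⟩, h8⟩
  refine ⟨_, main U.card U rfl Subset.rfl (fun _ _ τ' h _ => h), sdiff_subset, ?_⟩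
  intro σ hσ
  rw [mem_sdiff, mem_union, not_or] at hσ
  obtain ⟨hσK, h1, h2⟩ := hσ
  by_contra hcon
  push Not at hcon
  by_cases haσ' : a σ ∈ σ
  · exact h1 ((hU σ).2 ⟨hσK, hcon, haσ'⟩)
  · have h3 : a σ ∈ act σ := ha_mem σ (hbig σ hσK hcon)
    have h4 : a (insert (a σ) σ) = a σ := ha_congr _ _ (act_insert σ _ h3)
    have h5 : (insert (a σ) σ).card = σ.card + 1 := card_insert_of_notMem haσ'
    apply h2
    rw [mem_image]
    refine ⟨insert (a σ) σ, (hU _).2 ⟨hins σ hσK _ h3, by omega, ?_⟩, ?_⟩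
    · rw [h4]
      exact mem_insert_self _ _
    · rw [h4, erase_insert haσ']

end abstract

end X225.Hm
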