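import Pool.Agent.X225.Hm.CollapseG

/-!
Integral simplicial chains on a linearly ordered vertex set, and elementary collapses.
-/

namespace X225.HmG

open Finset

variable {V : Type*} [LinearOrder V]

/-- orientation sign of `v` in `τ`: `(-1) ^ (number of elements of τ before v)` -/
def sg (τ : Finset V) (v : V) : ℤ := (-1) ^ (τ.filter fun w => w < v).card

/-- the boundary of the simplex `τ` -/
noncomputable def bdS (τ : Finset V) : Finset V →₀ ℤ :=
  ∑ v ∈ τ, Finsupp.single (τ.erase v) (sg τ v)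

/-- The simplicial boundary map on integral chains. -/
noncomputable def bdC : (Finset V →₀ ℤ) →ₗ[ℤ] (Finset V →₀ ℤ) :=
  Finsupp.linearCombination ℤ bdS

lemma bdC_single (τ : Finset V) (c : ℤ) : bdC (Finsupp.single τ c) = c • bdS τ :=
  Finsupp.linearCombination_single ℤ c τ

lemma sg_ne_zero (τ : Finset V) (v : V) : sg τ v ≠ 0 := pow_ne_zero _ (by norm_num)

lemma sg_mul_self (τ : Finset V) (v : V) : sg τ v * sg τ v = 1 := by
  unfold sg
  rw [← pow_add, ← two_mul, pow_mul]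
  norm_num

lemma sg_erase_lt (τ : Finset V) {u v : V} (hu : u ∈ τ) (h : u < v) :
    sg (τ.erase u) v = - sg τ v := by
  unfold sg
  have h1 : (τ.filter fun w => w < v).card = ((τ.erase u).filter fun w => w < v).card + 1 := by
    rw [filter_erase, card_erase_of_mem (mem_filter.2 ⟨hu, h⟩)]
    have : 0 < (τ.filter fun w => w < v).card := card_pos.2 ⟨u, mem_filter.2 ⟨hu, h⟩⟩
    omega
  rw [h1, pow_succ]
  ring

lemma sg_erase_ge (τ : Finset V) {u v : V} (h : ¬ u < v) : sg (τ.erase u) v = sg τ v := by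
  unfold sg
  congr 1
  rw [filter_erase, erase_eq_of_notMem]
  intro h'
  exact h (mem_filter.1 h').2

lemma bdC_bdS (τ : Finset V) : bdC (bdS τ) = 0 := by
  have h1 : bdC (bdS τ) = ∑ v ∈ τ, ∑ u ∈ τ.erase v,
      Finsupp.single ((τ.erase v).erase u) (sg τ v * sg (τ.erase v) u) := by
    conv_lhs => unfold bdS
    rw [map_sum]
    refine sum_congr rfl fun v _ => ?_
    rw [bdC_single]
    unfold bdS
    rw [smul_sum]
    refine sum_congr rfl fun u _ => ?_
    rw [Finsupp.smul_single, smul_eq_mul]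
  rw [h1, sum_sigma']
  refine sum_involution (fun p _ => ⟨p.2, p.1⟩) ?_ ?_ ?_ ?_
  · rintro ⟨v, u⟩ hp
    simp only [mem_sigma, mem_erase] at hp
    obtain ⟨hv, huv, hu⟩ := hp
    simp only
    rw [erase_right_comm (a := u) (b := v), ← Finsupp.single_add]
    have h2 : sg τ v * sg (τ.erase v) u + sg τ u * sg (τ.erase u) v = 0 := by
      rcases lt_or_gt_of_ne huv with h | h
      · rw [sg_erase_ge τ (not_lt.2 h.le), sg_erase_lt τ hu h]
        ring
      · rw [sg_erase_lt τ hv h, sg_erase_ge τ (not_lt.2 h.le)]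
        ring
    rw [h2, Finsupp.single_zero]
  · rintro ⟨v, u⟩ hp _ he
    simp only [mem_sigma, mem_erase] at hp
    simp only [Sigma.mk.injEq, heq_eq_eq] at he
    exact hp.2.1 he.1
  · rintro ⟨v, u⟩ hp
    simp only [mem_sigma, mem_erase] at hp ⊢
    exact ⟨hp.2.2, fun h => hp.2.1 h.symm, hp.1⟩
  · rintro ⟨v, u⟩ _
    rfl

lemma bdC_bdC (z : Finset V →₀ ℤ) : bdC (bdC z) = 0 := by
  induction z using Finsupp.induction_linear with
  | zero => simp
  | add x y hx hy => rw [map_add, map_add, hx, hy, add_zero]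
  | single τ c => rw [bdC_single, map_smul, bdC_bdS, smul_zero]

lemma bdS_apply_ne {τ σ : Finset V} (h : bdS τ σ ≠ 0) : σ ⊂ τ ∧ τ.card = σ.card + 1 := by
  unfold bdS at h
  rw [Finsupp.finset_sum_apply] at h
  obtain ⟨v, hv, hne⟩ := exists_ne_zero_of_sum_ne_zero h
  rw [Finsupp.single_apply] at hne
  have h1 : τ.erase v = σ := by
    by_contra hcon
    rw [if_neg hcon] at hne
    exact hne rfl
  rw [← h1]
  refine ⟨erase_ssubset hv, ?_⟩
  rw [card_erase_of_mem hv]
  have := card_pos.2 ⟨v, hv⟩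
  omega

lemma bdS_apply_of_face {τ σ : Finset V} (h : σ ⊂ τ) (hc : τ.card = σ.card + 1) :
    bdS τ σ = 1 ∨ bdS τ σ = -1 := by
  obtain ⟨v, hv, hvσ⟩ := exists_of_ssubset h
  have h1 : σ = τ.erase v := by
    apply eq_of_subset_of_card_le
    · intro x hx
      exact mem_erase.2 ⟨fun he => hvσ (he ▸ hx), h.subset hx⟩
    · rw [card_erase_of_mem hv]
      omega
  have h2 : bdS τ σ = sg τ v := by
    unfold bdS
    rw [Finsupp.finset_sum_apply, sum_eq_single v]
    · rw [h1, Finsupp.single_eq_same]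
    · intro u hu huv
      rw [Finsupp.single_apply, if_neg]
      intro he
      rw [h1] at he
      have h3 : u ∈ τ.erase v := mem_erase.2 ⟨huv, hu⟩
      rw [← he] at h3
      exact notMem_erase _ _ h3
    · intro h3
      exact absurd hv h3
  rw [h2]
  unfold sg
  exact neg_one_pow_eq_or ℤ _

lemma bdC_apply (z : Finset V →₀ ℤ) (σ : Finset V) :
    bdC z σ = ∑ ρ ∈ z.support, z ρ * bdS ρ σ := by
  unfold bdC
  rw [Finsupp.linearCombination_apply, Finsupp.sum, Finsupp.finset_sum_apply]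
  exact sum_congr rfl fun ρ _ => by rw [Finsupp.smul_apply, smul_eq_mul]

/-- pushing a cycle through an elementary collapse -/
lemma push_elem {M L : Finset (Finset V)} (h : ElemCollapse M L)
    (hM : ∀ σ ∈ M, ∀ ρ, ρ ⊆ σ → ρ.Nonempty → ρ ∈ M) {i : ℕ} (hi : 1 ≤ i)
    (z : Finset V →₀ ℤ) (hz : ∀ σ ∈ z.support, σ ∈ M ∧ σ.card = i + 1) (hd : bdC z = 0) :
    ∃ w : Finset V →₀ ℤ, (∀ σ ∈ w.support, σ ∈ M ∧ σ.card = i + 2) ∧
      ∀ σ ∈ (z - bdC w).support, σ ∈ L ∧ σ.card = i + 1 := by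
  obtain ⟨σ, hσ, τ, hτ, hστ, hc, huniq, rfl⟩ := h
  by_cases h1 : σ.card = i + 1
  · -- remove `σ` with the boundary of `τ`
    have hτσ := bdS_apply_of_face hστ hc
    let c : ℤ := z σ * bdS τ σ
    refine ⟨Finsupp.single τ c, ?_, ?_⟩
    · intro ρ hρ
      have := Finsupp.support_single_subset hρ
      rw [mem_singleton] at this
      subst this
      exact ⟨hτ, by omega⟩
    · intro ρ hρ
      rw [Finsupp.mem_support_iff, bdC_single, Finsupp.sub_apply, Finsupp.smul_apply,
        smul_eq_mul] at hρ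
      have hmem : ρ ∈ M ∧ ρ.card = i + 1 := by
        by_cases h2 : z ρ = 0
        · rw [h2, zero_sub, neg_ne_zero] at hρ
          obtain ⟨h3, h4⟩ := bdS_apply_ne (right_ne_zero_of_mul hρ)
          exact ⟨hM τ hτ ρ h3.subset (card_pos.1 (by omega)), by omega⟩
        · exact hz ρ (Finsupp.mem_support_iff.2 h2)
      refine ⟨?_, hmem.2⟩
      rw [mem_sdiff, mem_insert, mem_singleton, not_or]
      refine ⟨hmem.1, ?_, ?_⟩
      · rintro rfl
        apply hρ
        change z ρ - z ρ * bdS τ ρ * bdS τ ρ = 0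
        rcases hτσ with h3 | h3
        · rw [h3]
          ring
        · rw [h3]
          ring
      · rintro rfl
        have := hmem.2
        omega
  · refine ⟨0, ?_, ?_⟩
    · intro ρ hρ
      rw [Finsupp.support_zero] at hρ
      exact absurd hρ (notMem_empty _)
    · intro ρ hρ
      rw [map_zero, sub_zero] at hρ
      have h2 := hz ρ hρ
      refine ⟨?_, h2.2⟩
      rw [mem_sdiff, mem_insert, mem_singleton, not_or]
      refine ⟨h2.1, ?_, ?_⟩
      · rintro rfl
        exact h1 h2.2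
      · rintro rfl
        -- `σ` has the only coface `ρ = τ`
        have h3 : bdC z σ = 0 := by
          rw [hd]
          rfl
        rw [bdC_apply, sum_eq_single ρ] at h3
        · rcases mul_eq_zero.1 h3 with h4 | h4
          · exact Finsupp.mem_support_iff.1 hρ h4
          · rcases bdS_apply_of_face hστ hc with h5 | h5
            · rw [h5] at h4
              norm_num at h4
            · rw [h5] at h4
              norm_num at h4
        · intro κ hκ hne
          by_contra hcon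
          have h4 := bdS_apply_ne (right_ne_zero_of_mul hcon)
          exact hne (huniq κ (hz κ hκ).1 h4.1)
        · intro h4
          exact absurd hρ h4

lemma elem_down {M L : Finset (Finset V)} (h : ElemCollapse M L)
    (hM : ∀ σ ∈ M, ∀ ρ, ρ ⊆ σ → ρ.Nonempty → ρ ∈ M) :
    L ⊆ M ∧ ∀ σ ∈ L, ∀ ρ, ρ ⊆ σ → ρ.Nonempty → ρ ∈ L := by
  obtain ⟨σ, hσ, τ, hτ, hστ, hc, huniq, rfl⟩ := h
  refine ⟨sdiff_subset, ?_⟩
  intro α hα ρ hρα hρ
  rw [mem_sdiff, mem_insert, mem_singleton, not_or] at hα ⊢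
  obtain ⟨hα1, hα2, hα3⟩ := hα
  refine ⟨hM α hα1 ρ hρα hρ, ?_, ?_⟩
  · rintro rfl
    exact hα3 (huniq α hα1 (lt_of_le_of_ne hρα (Ne.symm hα2)))
  · rintro rfl
    exact hα3 (huniq α hα1 (lt_of_lt_of_le hστ hρα))

/-- A cycle of a complex is homologous to a cycle of the collapsed complex. -/
theorem push {K L : Finset (Finset V)} (h : Collapses K L)
    (hK : ∀ σ ∈ K, ∀ ρ, ρ ⊆ σ → ρ.Nonempty → ρ ∈ K) {i : ℕ} (hi : 1 ≤ i)
    (z : Finset V →₀ ℤ) (hz : ∀ σ ∈ z.support, σ ∈ K ∧ σ.card = i + 1) (hd : bdC z = 0) :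
    ∃ w : Finset V →₀ ℤ, (∀ σ ∈ w.support, σ ∈ K ∧ σ.card = i + 2) ∧
      ∀ σ ∈ (z - bdC w).support, σ ∈ L ∧ σ.card = i + 1 := by
  have key : (∀ σ ∈ L, ∀ ρ, ρ ⊆ σ → ρ.Nonempty → ρ ∈ L) ∧ L ⊆ K ∧
      ∃ w : Finset V →₀ ℤ, (∀ σ ∈ w.support, σ ∈ K ∧ σ.card = i + 2) ∧
      ∀ σ ∈ (z - bdC w).support, σ ∈ L ∧ σ.card = i + 1 := by
    induction h with
    | refl =>
      refine ⟨hK, Subset.rfl, 0, ?_, ?_⟩
      · intro ρ hρ
        rw [Finsupp.support_zero] at hρ
        exact absurd hρ (notMem_empty _)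
      · intro ρ hρ
        rw [map_zero, sub_zero] at hρ
        exact hz ρ hρ
    | tail _ h2 ih =>
      obtain ⟨ih1, ih2, w, hw1, hw2⟩ := ih
      obtain ⟨w', hw1', hw2'⟩ := push_elem h2 ih1 hi (z - bdC w) hw2 (by
        rw [map_sub, hd, bdC_bdC, sub_zero])
      obtain ⟨h3, h4⟩ := elem_down h2 ih1
      refine ⟨h4, h3.trans ih2, w + w', ?_, ?_⟩
      · intro σ hσ
        rcases mem_union.1 (Finsupp.support_add hσ) with h5 | h5
        · exact hw1 σ h5
        · exact ⟨ih2 (hw1' σ h5).1, (hw1' σ h5).2⟩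
      · have h5 : z - bdC (w + w') = z - bdC w - bdC w' := by
          rw [map_add]
          abel
        rw [h5]
        exact hw2'
  exact key.2.2

end X225.HmG
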